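import Pool.Agent.TH684.DN.Img

/-!
# Collisions or many images
-/

set_option autoImplicit false

namespace Pool.Agent.TH684.DN

open Finset Pool.Agent.NPC Pool.Agent.H251R5.PQ Pool.Agent.W901.AT Pool.Agent.H579R2.Spt
open Pool.Agent.TH684.EX Pool.Agent.TH684.CX Pool.Agent.TH684.DI Pool.Agent.TH684.AM
open Pool.Agent.W920.NL (InAM Str str_finite str_ncard ncard_split_le)
open Pool.Agent.W901.RL (card_BL_nat)

/-- **Completeness.** -/
theorem coll_or_hash (s S : ℕ) (F : List Bool → List Bool) (hF : ∀ x ∈ BL s, (F x).length ≤ S) :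
    (∃ x x' : List Bool, x.length = s ∧ x'.length = s ∧ x ≠ x' ∧ F x = F x') ∨
    ∃ HV : List (List Bool), HV.length = s + 1 ∧ (∀ h ∈ HV, h.length = s * (S + 1)) ∧
      ∀ α : List Bool, α.length = s → ∃ x : List Bool, x.length = s ∧
        ∃ h ∈ HV, hsh (S + 1) s h (F x) = α := by
  classical
  by_cases hc : ∃ x x' : List Bool, x.length = s ∧ x'.length = s ∧ x ≠ x' ∧ F x = F x'
  · exact Or.inl hc
  · right
    have hinj : Set.InjOn F (BL s) := by
      intro x hx x' hx' h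
      by_contra hne
      exact hc ⟨x, x', mem_BL.1 (Finset.mem_coe.1 hx), mem_BL.1 (Finset.mem_coe.1 hx'), hne, h⟩
    set V : Finset (List Bool) := (BL s).image F with hV
    have hVc : 2 ^ s ≤ V.card := by
      rw [hV, Finset.card_image_of_injOn hinj, card_BL_nat]
    obtain ⟨HV, h1, h2, h3⟩ := exists_hitting (BL (s * (S + 1)))
      (fun y r => ∃ c ∈ V, hsh (S + 1) s r c = y) (s + 1) (BL s) (fun y hy => by
        have h1 := hit_half (S + 1) s V (fun c hc => by
          obtain ⟨x, hx, rfl⟩ := Finset.mem_image.1 hc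
          exact Nat.succ_le_succ (hF x hx)) hVc y (mem_BL.1 hy)
        rw [card_BL_nat]
        have h2 : {ω : List Bool | ω ∈ BL (s * (S + 1)) ∧ ∃ c ∈ V, hsh (S + 1) s ω c = y} =
            ↑((BL (s * (S + 1))).filter (fun r => ∃ c ∈ V, hsh (S + 1) s r c = y)) := by
          ext ω; simp
        rw [h2, Set.ncard_coe_finset]
        exact h1) (Finset.card_pos.1 (by rw [card_BL_nat]; positivity)) (by
        rw [card_BL_nat]
        exact Nat.pow_lt_pow_right (by norm_num) (by omega))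
    refine ⟨HV, h1, fun h hh => mem_BL.1 (h2 h hh), fun α hα => ?_⟩
    obtain ⟨h, hh, c, hc1, hc2⟩ := h3 α (mem_BL.2 hα)
    obtain ⟨x, hx, rfl⟩ := Finset.mem_image.1 hc1
    exact ⟨x, mem_BL.1 hx, h, hh, hc2⟩

/-- **Soundness.** -/
theorem hash_sound (s κ mv cs : ℕ) (F : List Bool → List Bool) (Fs : Finset (List Bool))
    (hFs : Fs.card ≤ 2 ^ κ) (HV : List (List Bool)) (hHV : HV.length ≤ s + 1) (hcs : s ≤ cs)
    (hκ : 2 * ((s + 1) * 2 ^ κ) ≤ 2 ^ s) (hF : ∀ x : List Bool, x.length = s → F x ∈ Fs) :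
    2 * {ch : List Bool | ch.length = cs ∧ ∃ x : List Bool, x.length = s ∧
      ∃ h ∈ HV, hsh mv s h (F x) = ch.take s}.ncard ≤ 2 ^ cs := by
  classical
  have h1 := ncard_exists_le (HV.toFinset ×ˢ Fs)
    (fun (q : List Bool × List Bool) c => hsh mv s q.1 q.2 = c.take s) cs (2 ^ (cs - s))
    (fun q _ => by
      have h2 := ncard_split_le (S := {c : List Bool | c.length = cs ∧
        hsh mv s q.1 q.2 = c.take s}) (a := s) (X := {hsh mv s q.1 q.2}) (Y := Str (cs - s))
        (Set.finite_singleton _) (str_finite _) (by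
          rintro c ⟨hc1, hc2⟩
          refine ⟨hc2.symm, ?_⟩
          change (c.drop s).length = cs - s
          rw [List.length_drop, hc1])
      rw [Set.ncard_singleton, one_mul, str_ncard] at h2
      exact h2)
  have h2 : {ch : List Bool | ch.length = cs ∧ ∃ x : List Bool, x.length = s ∧
      ∃ h ∈ HV, hsh mv s h (F x) = ch.take s} ⊆
      {c : List Bool | c.length = cs ∧ ∃ q ∈ HV.toFinset ×ˢ Fs,
        hsh mv s q.1 q.2 = c.take s} := by
    rintro ch ⟨hc, x, hx, h, hh, he⟩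
    exact ⟨hc, (h, F x), Finset.mem_product.2 ⟨List.mem_toFinset.2 hh, hF x hx⟩, he⟩
  have h3 := (Set.ncard_le_ncard h2 ((str_finite cs).subset fun r hr => hr.1)).trans h1
  rw [Finset.card_product] at h3
  have h4 : HV.toFinset.card * Fs.card ≤ (s + 1) * 2 ^ κ :=
    Nat.mul_le_mul ((List.toFinset_card_le HV).trans hHV) hFs
  calc 2 * {ch : List Bool | ch.length = cs ∧ ∃ x : List Bool, x.length = s ∧
        ∃ h ∈ HV, hsh mv s h (F x) = ch.take s}.ncard
      ≤ 2 * ((HV.toFinset.card * Fs.card) * 2 ^ (cs - s)) := Nat.mul_le_mul_left _ h3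
    _ ≤ 2 * (((s + 1) * 2 ^ κ) * 2 ^ (cs - s)) :=
        Nat.mul_le_mul_left _ (Nat.mul_le_mul_right _ h4)
    _ = (2 * ((s + 1) * 2 ^ κ)) * 2 ^ (cs - s) := by ring
    _ ≤ 2 ^ s * 2 ^ (cs - s) := Nat.mul_le_mul_right _ hκ
    _ = 2 ^ cs := by rw [← pow_add, Nat.add_sub_cancel' hcs]

end Pool.Agent.TH684.DN
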