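import Pool.Agent.TH684.EX.Defs

/-!
# Sets of subexponential density and conjunctive reductions: definitions

Polynomial time is Mathlib's `Turing.TM2ComputableInPolyTime` (through `Pool.Agent.NPC.PolyTime`).
-/

set_option autoImplicit false

namespace Pool.Agent.TH684.DN

open Pool.Agent.NPC Pool.Agent.H251R5.PQ

/-- The set `D` has subexponential density: for every `k`, if `n` is large then at most `2 ^ n` of the
strings of length at most `n ^ k` are in `D`. -/
def SubExp (D : Set (List Bool)) : Prop :=
  ∀ k : ℕ, ∃ n0 : ℕ, ∀ n : ℕ, n0 ≤ n → {y : List Bool | y.length ≤ n ^ k ∧ y ∈ D}.ncard ≤ 2 ^ n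

/-- `S` is reducible to `D` by a conjunctive reduction with few queries: a polynomial-time algorithm
`R` maps every string `z` to a list of strings such that `z` is in `S` if and only if all strings of
the list are in `D`; the number of the strings of the list is `O(|z| ^ (d / (d + 1)))` for a number
`d`. (A many-one reduction is the case of lists with one string.) -/
def ConjReduces (S D : Set (List Bool)) : Prop :=
  ∃ (R : List Bool → List (List Bool)) (c d : ℕ), PolyTime (fun z => bits (R z)) ∧
    ∀ z : List Bool, (R z).length ^ (d + 1) ≤ c * z.length ^ d + c ∧ (z ∈ S ↔ ∀ y ∈ R z, y ∈ D)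

end Pool.Agent.TH684.DN
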