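import Pool.Agent.TH684.DN.Space

/-!
# Sets of subexponential density and `PSPACE`: the theorem
-/

set_option autoImplicit false

namespace Pool.Agent.TH684.DN

open Pool.Agent.NPC Pool.Agent.H251R5.PQ Pool.Agent.W901.AT Pool.Agent.H579R2.Spt
open Pool.Agent.TH684.EX Pool.Agent.TH684.CX Pool.Agent.TH684.DI Pool.Agent.TH684.AM
open Pool.Agent.W901.NU
open Pool.Agent.H623R2.PS (InPSPACE PSPACEHard)
open Pool.Agent.TH762.XC (FeasibleIn pspace_sub_of_excl)
open Pool.Agent.W903.GP (InPH)
open Pool.Agent.W920.NL (InAM)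

/-- decoding of codes -/
def dec1 (α : Type) [TEnc α] [TDec α] (z : List Bool) : Option α :=
  (unbits α z).elim none (fun a => bif decide (bits a = z) then some a else none)

theorem dec1_iff {α : Type} [TEnc α] [TDec α] {z : List Bool} {a : α} :
    dec1 α z = some a ↔ z = bits a := by
  unfold dec1
  constructor
  · intro h
    cases h2 : unbits α z with
    | none => rw [h2, Option.elim_none] at h; exact absurd h (by simp)
    | some b =>
      rw [h2, Option.elim_some] at h
      by_cases h3 : bits b = z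
      · rw [decide_eq_true h3, cond_true] at h
        rw [← Option.some.inj h, h3]
      · rw [decide_eq_false h3, cond_false] at h
        exact absurd h (by simp)
  · rintro rfl
    rw [unbits_bits, Option.elim_some, decide_eq_true rfl, cond_true]

theorem dec1_poly {α : Type} [TEnc α] [TDec α] : Poly (dec1 α) := by
  unfold dec1
  refine NPC.Poly.optElim (o := fun z : List Bool => unbits α z) (g := fun _ => none)
      (h := fun z a => bif decide (bits a = z) then some a else none) poly_unbits
      (NPC.Poly.const _) ?_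
  exact NPC.Poly.cond (NPC.Poly.decide_eq (bits_poly.comp (NPC.Poly.snd NPC.Poly.id))
    (NPC.Poly.fst NPC.Poly.id)) (NPC.Poly.some (NPC.Poly.snd NPC.Poly.id)) (NPC.Poly.const _)

theorem lang_of_cpr {C : Set (List Bool) → Prop} (hC : Cl C) {α : Type} [TEnc α] [TDec α]
    {P : α → Prop} (h : CPr C P) : C (lang P) := by
  have h1 := CPr.to_raw hC (h.part hC (f := dec1 α) dec1_poly)
  have h2 : {z | ∃ a, dec1 α z = some a ∧ P a} = lang P := by
    ext z
    constructor
    · rintro ⟨a, ha, hP⟩
      exact (dec1_iff.1 ha) ▸ bits_mem_lang.2 hP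
    · rintro ⟨a, rfl, hP⟩
      exact ⟨a, dec1_iff.2 rfl, hP⟩
  rw [h2] at h1
  exact h1

theorem inC_some {C : Set (List Bool) → Prop} (hC : Cl C) {A : Set (List Bool)} (hA : C A) :
    C (lang (fun L : List (List Bool) => ∃ y ∈ L, y ∈ A)) := by
  refine lang_of_cpr hC ?_
  have e2 : Poly (fun t : List (List Bool) × List Bool => t.2) := NPC.Poly.snd NPC.Poly.id
  have h0 : Poly (fun t : List (List Bool) × List Bool => t.1.any (fun u => decide (u = t.2))) :=
    NPC.Poly.any (l := fun t : List (List Bool) × List Bool => t.1)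
      (p := fun t u => decide (u = t.2)) (NPC.Poly.fst NPC.Poly.id)
      (NPC.Poly.decide_eq (NPC.Poly.snd NPC.Poly.id) (e2.comp (NPC.Poly.fst NPC.Poly.id)))
  have h1 : CPr C (fun t : List (List Bool) × List Bool =>
      t.1.any (fun u => decide (u = t.2)) = true ∧ t.2 ∈ A) :=
    CPr.and hC (CPr.poly hC h0) ((CPr.of_raw hC hA).comp hC e2)
  refine (CPr.ex hC h1 Polynomial.X).congr fun L => ?_
  simp only [Polynomial.eval_X, List.any_eq_true, decide_eq_true_eq]
  constructor
  · rintro ⟨y, -, ⟨u, h2, rfl⟩, h3⟩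
    exact ⟨u, h2, h3⟩
  · rintro ⟨y, h2, h3⟩
    exact ⟨y, (sz_le_of_mem h2).le, ⟨y, h2, rfl⟩, h3⟩

/-- **Reductions of `PSPACE` to a set of subexponential density.** -/
theorem pspace_sub_am {D : Set (List Bool)} (hD : SubExp D)
    (h : ∀ S : Set (List Bool), InPSPACE S → ConjReduces S D) {S : Set (List Bool)}
    (hS : InPSPACE S) : InAM S := by
  have hc : ∀ S : Set (List Bool), InNP S → InAM Sᶜ := fun S hS =>
    inAM_of_dens hD (Or.inl fun S hS => h S (np_sub_pspace hS)) hS
  have hC := cl_am hc
  obtain ⟨R, c, d, hR, hs⟩ := h _ (inC_some cl_pspace node_pspace)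
  obtain ⟨P, K, M, N, hsp, hRp, -⟩ := exists_spec (A := lang nodeP) false hD hR
    (fun z => (hs z).1) (fun L => by
      rw [← (hs (bits L)).2, bits_mem_lang]
      simp [W])
  exact pspace_sub_of_excl hC node_hard (le_inP false) (feasibleIn_of_spec hC hsp hRp) S hS

end Pool.Agent.TH684.DN
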