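import Pool.Agent.TH684.AM.Thm
import Pool.Agent.TH684.DN.Defs

/-!
# Selections of strings and their images
-/

set_option autoImplicit false

namespace Pool.Agent.TH684.DN

open Finset Pool.Agent.NPC Pool.Agent.H251R5.PQ Pool.Agent.W901.AT Pool.Agent.H579R2.Spt
open Pool.Agent.TH684.EX Pool.Agent.TH684.CX Pool.Agent.TH684.DI Pool.Agent.TH684.AM
open Pool.Agent.W920.NL (InAM Str str_finite str_ncard ncard_split_le)
open Pool.Agent.W901.RL (card_BL_nat)

/-- The first string of the list and the ones chosen by the selection `x` among the next `s` ones. -/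
def sub (s : ℕ) (qs : List (List Bool)) (x : List Bool) : List (List Bool) :=
  qs.getD 0 [] ::
    ((List.range s).filter (fun i => x.getD i false)).map (fun i => qs.getD (i + 1) [])

/-- Some string of the list has the value `!e`. -/
def W (A : Set (List Bool)) (e : Bool) (L : List (List Bool)) : Prop :=
  ∃ y ∈ L, (y ∈ A ↔ e = false)

theorem sub_length_le (s : ℕ) (qs : List (List Bool)) (x : List Bool) :
    (sub s qs x).length ≤ s + 1 := by
  unfold sub
  rw [List.length_cons, List.length_map]
  have h := List.length_filter_le (fun i => x.getD i false) (List.range s)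
  rw [List.length_range] at h
  omega

theorem mem_sub {s : ℕ} {qs : List (List Bool)} {x y : List Bool} :
    y ∈ sub s qs x ↔ y = qs.getD 0 [] ∨ ∃ i < s, x.getD i false = true ∧ y = qs.getD (i + 1) [] := by
  unfold sub
  rw [List.mem_cons, List.mem_map]
  constructor
  · rintro (h | ⟨i, h1, h2⟩)
    · exact Or.inl h
    · rw [List.mem_filter, List.mem_range] at h1
      exact Or.inr ⟨i, h1.1, h1.2, h2.symm⟩
  · rintro (h | ⟨i, h1, h2, h3⟩)
    · exact Or.inl h
    · exact Or.inr ⟨i, List.mem_filter.2 ⟨List.mem_range.2 h1, h2⟩, h3.symm⟩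

theorem w_base {A : Set (List Bool)} {e : Bool} {s : ℕ} {qs : List (List Bool)}
    (h : qs.getD 0 [] ∈ A ↔ e = false) (x : List Bool) : W A e (sub s qs x) :=
  ⟨_, mem_sub.2 (Or.inl rfl), h⟩

theorem w_exc {A : Set (List Bool)} {e : Bool} {s i : ℕ} {qs : List (List Bool)}
    (h : ∀ j < s + 1, ((qs.getD j [] ∈ A ↔ e = false) ↔ j = i + 1)) (hi : i < s) (x : List Bool) :
    W A e (sub s qs x) ↔ x.getD i false = true := by
  constructor
  · rintro ⟨y, hy, hW⟩
    rcases mem_sub.1 hy with h1 | ⟨j, h1, h2, h3⟩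
    · rw [h1] at hW
      have := (h 0 (by omega)).1 hW
      omega
    · rw [h3] at hW
      have := (h (j + 1) (by omega)).1 hW
      have h4 : j = i := by omega
      rw [h4] at h2
      exact h2
  · intro h1
    exact ⟨_, mem_sub.2 (Or.inr ⟨i, hi, h1, rfl⟩), (h (i + 1) (by omega)).2 rfl⟩

/-! ### The family of vectors -/

/-- The vectors with exactly one entry `!e`, and the vectors all of whose entries are `!e`. -/
def Le (e : Bool) : Set (List Bool) := lang (fun q : ℕ × (ℕ × ℕ) =>
  (bif decide (q.2.1 < q.1) then (bif decide (q.2.2 = q.2.1) then !e else e) else !e) = true)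

theorem le_inP (e : Bool) : InP (Le e) := by
  refine inPP_of (d := fun q : ℕ × (ℕ × ℕ) =>
    bif decide (q.2.1 < q.1) then (bif decide (q.2.2 = q.2.1) then !e else e) else !e) ?_
    (fun q => Iff.rfl)
  have e1 : Poly (fun q : ℕ × (ℕ × ℕ) => q.1) := NPC.Poly.fst NPC.Poly.id
  have e2 : Poly (fun q : ℕ × (ℕ × ℕ) => q.2.1) := NPC.Poly.fst (NPC.Poly.snd NPC.Poly.id)
  have e3 : Poly (fun q : ℕ × (ℕ × ℕ) => q.2.2) := NPC.Poly.snd (NPC.Poly.snd NPC.Poly.id)
  exact NPC.Poly.cond (NPC.Poly.decide_lt e2 e1) (NPC.Poly.cond (NPC.Poly.decide_eq e3 e2)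
    (NPC.Poly.const _) (NPC.Poly.const _)) (NPC.Poly.const _)

/-- What it means that the answers are the vector number `l`. -/
theorem exc_of_vec {A : Set (List Bool)} {e : Bool} {qs : List (List Bool)} {l : ℕ}
    (h : answers A qs = vec (Le e) qs.length l) :
    ∀ j < qs.length, ((qs.getD j [] ∈ A ↔ e = false) ↔ (l < qs.length → j = l)) := by
  classical
  intro j hj
  have h7 := congrArg (fun u => u.getD j false) h
  simp only [answers, vec] at h7
  rw [List.getD_eq_getElem _ _ (by simpa using hj), List.getD_eq_getElem _ _ (by simpa using hj),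
    List.getElem_map, List.getElem_map, List.getElem_range, decide_eq_decide] at h7
  rw [List.getD_eq_getElem _ _ hj, h7, Le, bits_mem_lang]
  by_cases h1 : l < qs.length
  · rw [decide_eq_true h1, cond_true]
    by_cases h2 : j = l
    · rw [decide_eq_true h2, cond_true]
      cases e <;> simp [h2]
    · rw [decide_eq_false h2, cond_false]
      cases e <;> simp [h1, h2]
  · rw [decide_eq_false h1, cond_false]
    cases e <;> simp [h1]

/-! ### Few images -/

theorem lists_card (Dn : Finset (List Bool)) : ∀ K : ℕ, ∃ F : Finset (List (List Bool)),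
    (∀ ys : List (List Bool), ys.length ≤ K → (∀ y ∈ ys, y ∈ Dn) → ys ∈ F) ∧
      F.card ≤ (Dn.card + 1) ^ K := by
  classical
  intro K
  induction K with
  | zero =>
    refine ⟨{[]}, fun ys h1 _ => ?_, by simp⟩
    rw [Finset.mem_singleton]
    exact List.length_eq_zero_iff.1 (Nat.le_zero.1 h1)
  | succ K ih =>
    obtain ⟨F, h1, h2⟩ := ih
    refine ⟨insert [] ((Dn ×ˢ F).image (fun p => p.1 :: p.2)), fun ys h3 h4 => ?_, ?_⟩
    · cases ys with
      | nil => exact Finset.mem_insert_self _ _
      | cons y ys =>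
        refine Finset.mem_insert_of_mem (Finset.mem_image.2 ⟨(y, ys), Finset.mem_product.2
          ⟨h4 y (by simp), h1 ys ?_ fun z hz => h4 z (by simp [hz])⟩, rfl⟩)
        rw [List.length_cons] at h3
        omega
    · have h3 : ((Dn ×ˢ F).image (fun p : List Bool × List (List Bool) => p.1 :: p.2)).card ≤
          Dn.card * F.card := Finset.card_image_le.trans (by rw [Finset.card_product])
      have h5 : Dn.card * F.card ≤ Dn.card * (Dn.card + 1) ^ K := Nat.mul_le_mul_left _ h2
      have h6 : 1 ≤ (Dn.card + 1) ^ K := Nat.one_le_pow _ _ (Nat.succ_pos _)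
      have h7 := Finset.card_insert_le ([] : List (List Bool))
        ((Dn ×ˢ F).image (fun p : List Bool × List (List Bool) => p.1 :: p.2))
      calc _ ≤ Dn.card * (Dn.card + 1) ^ K + (Dn.card + 1) ^ K := by omega
        _ = (Dn.card + 1) ^ (K + 1) := by ring

/-- The codes of the images that consist of at most `K` members of `D` of length at most `N`. -/
theorem images_card (D : Set (List Bool)) (K N M : ℕ)
    (hD : {y : List Bool | y.length ≤ N ∧ y ∈ D}.ncard ≤ 2 ^ M) :
    ∃ F : Finset (List Bool), (∀ ys : List (List Bool), ys.length ≤ K →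
      (∀ y ∈ ys, y.length ≤ N ∧ y ∈ D) → bits ys ∈ F) ∧ F.card ≤ 2 ^ ((M + 1) * K) := by
  classical
  have hfin : {y : List Bool | y.length ≤ N ∧ y ∈ D}.Finite :=
    (BLe N).finite_toSet.subset fun y hy => Finset.mem_coe.2 (mem_BLe.2 hy.1)
  obtain ⟨F, h1, h2⟩ := lists_card hfin.toFinset K
  refine ⟨F.image (fun ys => bits ys), fun ys h3 h4 => Finset.mem_image_of_mem _
    (h1 ys h3 fun y hy => hfin.mem_toFinset.2 (h4 y hy)), ?_⟩
  refine Finset.card_image_le.trans (h2.trans ?_)
  rw [← Set.ncard_eq_toFinset_card _ hfin]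
  have h5 : 1 ≤ 2 ^ M := Nat.one_le_two_pow
  calc ({y : List Bool | y.length ≤ N ∧ y ∈ D}.ncard + 1) ^ K ≤ (2 ^ (M + 1)) ^ K := by
        refine Nat.pow_le_pow_left ?_ K
        rw [pow_succ]
        omega
    _ = 2 ^ ((M + 1) * K) := by rw [← pow_mul]

end Pool.Agent.TH684.DN
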