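import Pool.Agent.TH684.DN.Prot

/-!
# Soundness and completeness of the protocol
-/

set_option autoImplicit false

namespace Pool.Agent.TH684.DN

open Finset Pool.Agent.NPC Pool.Agent.H251R5.PQ Pool.Agent.W901.AT Pool.Agent.H579R2.Spt
open Pool.Agent.TH684.EX Pool.Agent.TH684.CX Pool.Agent.TH684.DI Pool.Agent.TH684.AM
open Pool.Agent.TH684.LT (exists_pow_add_bound)
open Pool.Agent.W920.NL (InAM Str str_finite str_ncard ncard_split_le)
open Pool.Agent.W901.RL (card_BL_nat)

theorem sz_ge_length (L : List (List Bool)) : L.length ≤ (bits L).length := by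
  have e1 := length_lt_sz L
  have e3 := bits_length L
  omega

theorem sub_le {qs : List (List Bool)} {a s : ℕ} (h : ∀ y ∈ qs, y.length ≤ a) (x : List Bool) :
    ∀ y ∈ sub s qs x, y.length ≤ a := by
  have hg : ∀ j, (qs.getD j []).length ≤ a := by
    intro j
    rcases Nat.lt_or_ge j qs.length with hj | hj
    · rw [List.getD_eq_getElem _ _ hj]
      exact h _ (List.getElem_mem hj)
    · rw [List.getD_eq_default _ _ hj]
      exact Nat.zero_le _
  intro y hy
  rcases mem_sub.1 hy with h1 | ⟨i, _, _, h1⟩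
  · rw [h1]; exact hg 0
  · rw [h1]; exact hg _

/-- The specification of the data. -/
structure Spec (P : Dat) (A D : Set (List Bool)) (e : Bool) (K M N : ℕ → ℕ) : Prop where
  red : ∀ L : List (List Bool), (∀ y ∈ P.R (bits L), y ∈ D) ↔ W A e L
  img : ∀ a, P.C0 ≤ a → ∀ L : List (List Bool), L.length ≤ P.s.eval a + 1 →
    (∀ y ∈ L, y.length ≤ a) → (P.R (bits L)).length ≤ K a ∧
      (∀ y ∈ P.R (bits L), y.length ≤ N a) ∧ (bits (P.R (bits L))).length ≤ P.S.eval a
  dens : ∀ a, P.C0 ≤ a → {y : List Bool | y.length ≤ N a ∧ y ∈ D}.ncard ≤ 2 ^ M a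
  num : ∀ a, P.C0 ≤ a →
    2 * ((P.s.eval a + 1) * 2 ^ ((M a + 1) * K a)) ≤ 2 ^ P.s.eval a
  len : ∀ zl, P.s.eval (zl + P.C0) ≤ P.L.eval zl
  tgt : ∀ zl, P.Q.eval zl + 1 + (2 * zl + 3) ≤ P.T.eval zl

variable {P : Dat} {A D : Set (List Bool)} {e : Bool} {K M N : ℕ → ℕ}

theorem okd_facts {qs : List (List Bool)} {zl : ℕ} {c : Cd} (h : okd P qs zl c = true) :
    P.C0 ≤ c.1.length ∧ c.1.length ≤ zl + P.C0 ∧ (∀ y ∈ qs, y.length ≤ c.1.length) ∧
      P.s.eval c.1.length < qs.length ∧ c.2.length ≤ P.s.eval c.1.length + 1 ∧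
      (bits c).length ≤ P.Q.eval zl := by
  unfold okd at h
  simp only [Bool.and_eq_true, decide_eq_true_eq, List.all_eq_true] at h
  obtain ⟨⟨⟨a1, a2⟩, a3, a4⟩, a5, a6⟩ := h
  exact ⟨a1, a2, a3, a4, a5, a6⟩

/-- The commitments with short codes. -/
noncomputable def cmd (n : ℕ) : Finset Cd :=
  (BLe n).preimage (fun c : Cd => bits c) (bits_injective.injOn)

theorem mem_cmd {n : ℕ} {c : Cd} : c ∈ cmd n ↔ (bits c).length ≤ n := by
  unfold cmd
  rw [Finset.mem_preimage, mem_BLe]

theorem card_cmd (n : ℕ) : (cmd n).card ≤ 2 ^ (n + 1) := by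
  classical
  unfold cmd
  rw [Finset.card_preimage]
  exact (Finset.card_filter_le _ _).trans (card_BLe n)

/-- A collision excludes a vector. -/
theorem cod_sound (hs : Spec P A D e K M N) {qs : List (List Bool)} {a : ℕ}
    {q : (List Bool × List Bool) × ℕ} (ha : P.s.eval a < qs.length) (h : cod P qs a q = true) :
    q.2 + 1 ≤ qs.length ∧ Exclude (Le e) A qs (q.2 + 1) := by
  unfold cod at h
  simp only [Bool.and_eq_true, decide_eq_true_eq, Bool.not_eq_true', decide_eq_false_iff_not] at h
  obtain ⟨h1, h2, h3⟩ := h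
  refine ⟨by omega, fun hv => h3 ?_⟩
  have h4 := exc_of_vec hv
  have h5 : ∀ j < P.s.eval a + 1, ((qs.getD j [] ∈ A ↔ e = false) ↔ j = q.2 + 1) := fun j hj => by
    rw [h4 j (by omega)]
    exact ⟨fun h => h (by omega), fun h _ => h⟩
  have h6 : P.R (bits (sub (P.s.eval a) qs q.1.1)) = P.R (bits (sub (P.s.eval a) qs q.1.2)) :=
    bits_injective h2
  have h7 := hs.red (sub (P.s.eval a) qs q.1.1)
  rw [h6, hs.red, w_exc h5 h1, w_exc h5 h1] at h7
  exact Bool.eq_iff_iff.2 h7.symm

/-- **Soundness for one commitment.** -/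
theorem one_com (hs : Spec P A D e K M N) {qs : List (List Bool)} {zl : ℕ} {c : Cd}
    (h : okd P qs zl c = true) (hb : qs.getD 0 [] ∈ A ↔ e = false) :
    2 * {ch : List Bool | ch.length = P.L.eval zl ∧ ∃ x, tsd P qs c ch x = true}.ncard ≤
      2 ^ P.L.eval zl := by
  obtain ⟨f1, f2, f3, f4, f5, f6⟩ := okd_facts h
  obtain ⟨F, hF1, hF2⟩ := images_card D (K c.1.length) (N c.1.length) (M c.1.length)
    (hs.dens _ f1)
  have h1 := hash_sound (P.s.eval c.1.length) ((M c.1.length + 1) * K c.1.length)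
    (P.S.eval c.1.length + 1) (P.L.eval zl) (imf P.R (P.s.eval c.1.length) qs) F hF2 c.2 f5
    ((eval_mono P.s f2).trans (hs.len zl)) (hs.num _ f1) (fun x _ => by
      obtain ⟨g1, g2, -⟩ := hs.img _ f1 (sub (P.s.eval c.1.length) qs x) (sub_length_le _ _ _)
        (sub_le f3 x)
      exact hF1 _ g1 fun y hy => ⟨g2 y hy, (hs.red _).2 (w_base hb x) y hy⟩)
  refine le_trans (Nat.mul_le_mul_left _ (Set.ncard_le_ncard ?_ ?_)) h1
  · rintro ch ⟨hc, x, hx⟩
    unfold tsd at hx
    simp only [Bool.and_eq_true, decide_eq_true_eq, List.any_eq_true] at hx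
    exact ⟨hc, x, hx.1, hx.2⟩
  · exact (str_finite _).subset fun r hr => hr.1

/-- **Soundness.** -/
theorem yd_sound (hs : Spec P A D e K M N) (qs : List (List Bool)) :
    2 ^ (2 * (bits qs).length + 3) * {r : List Bool |
      r.length = (P.T * P.L).eval (bits qs).length ∧ ∃ w l,
        yd P (pairBits (pairBits (bits qs) r) w) = some l ∧
        ¬ (l ≤ qs.length ∧ Exclude (Le e) A qs l)}.ncard ≤
      2 ^ (P.T * P.L).eval (bits qs).length := by
  set zl := (bits qs).length with hzl
  rw [Polynomial.eval_mul]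
  have h2 := union_commit (cmd (P.Q.eval zl)) (P.Q.eval zl) (P.T.eval zl) (P.L.eval zl)
    (2 * zl + 3) (card_cmd _)
    (fun c ch => okd P qs zl c = true ∧ (qs.getD 0 [] ∈ A ↔ e = false) ∧
      ∃ x, tsd P qs c ch x = true) (fun c _ => ?_) (hs.tgt zl)
  · refine le_trans (Nat.mul_le_mul_left _ (Set.ncard_le_ncard ?_ ?_)) h2
    · rintro r ⟨hr, w, l, hy, hl⟩
      unfold yd at hy
      simp only [unpair_pairBits, dl_bits] at hy
      rw [← hzl] at hy
      cases h3 : okd P qs zl (dgd w).1
      · rw [h3, cond_false] at hy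
        exact absurd hy (by simp)
      · rw [h3, cond_true] at hy
        obtain ⟨f1, f2, f3, f4, f5, f6⟩ := okd_facts h3
        cases h4 : cod P qs (dgd w).1.1.length (dgd w).2.1
        · rw [h4, cond_false] at hy
          cases h5 : ald P qs zl r (dgd w).1 (dgd w).2.2
          · rw [h5, cond_false] at hy
            exact absurd hy (by simp)
          · rw [h5, cond_true] at hy
            have h6 := Option.some.inj hy
            subst h6
            have h7 : answers A qs = vec (Le e) qs.length qs.length := by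
              by_contra h8
              exact hl ⟨le_rfl, h8⟩
            have h8 : qs.getD 0 [] ∈ A ↔ e = false :=
              (exc_of_vec h7 0 (by omega)).2 (fun h => absurd h (lt_irrefl _))
            unfold ald at h5
            rw [List.all_eq_true] at h5
            exact ⟨hr, (dgd w).1, mem_cmd.2 f6, fun τ hτ =>
              ⟨h3, h8, _, h5 τ (List.mem_range.2 hτ)⟩⟩
        · rw [h4, cond_true] at hy
          have h6 := Option.some.inj hy
          subst h6
          exact absurd (cod_sound hs f4 h4) hl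
    · exact (str_finite _).subset fun r hr => hr.1
  · by_cases hc : okd P qs zl c = true ∧ (qs.getD 0 [] ∈ A ↔ e = false)
    · refine le_trans (Nat.mul_le_mul_left _ (Set.ncard_le_ncard ?_ ?_)) (one_com hs hc.1 hc.2)
      · rintro ch ⟨a1, -, -, a2⟩
        exact ⟨a1, a2⟩
      · exact (str_finite _).subset fun r hr => hr.1
    · have h3 : {ch : List Bool | ch.length = P.L.eval zl ∧
        (okd P qs zl c = true ∧ (qs.getD 0 [] ∈ A ↔ e = false) ∧
          ∃ x, tsd P qs c ch x = true)} = ∅ := by
        ext ch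
        simp only [Set.mem_ofPred_eq, Set.mem_empty_iff_false, iff_false]
        rintro ⟨-, a1, a2, -⟩
        exact hc ⟨a1, a2⟩
      rw [h3]
      simp

/-! ### Completeness -/

/-- The bound for the commitments as a function of the unary number. -/
noncomputable def Qd (s S : Polynomial ℕ) : Polynomial ℕ :=
  (Polynomial.C 4 * Polynomial.X + 1) + ((s + 1) * (Polynomial.C 4 * (s * (S + 1)) + 2) + 1) + 1

theorem cd_size {s S : Polynomial ℕ} {a : ℕ} {HV : List (List Bool)}
    (h1 : HV.length ≤ s.eval a + 1) (h2 : ∀ h ∈ HV, h.length = s.eval a * (S.eval a + 1)) :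
    (bits ((List.replicate a true, HV) : Cd)).length ≤ (Qd s S).eval a := by
  rw [bits_length, sz_pair]
  have e1 := sz_listBool_le (List.replicate a true)
  rw [List.length_replicate] at e1
  have e2 := sz_le_length_mul HV (4 * (s.eval a * (S.eval a + 1)) + 1) (fun h hh => by
    have e3 := sz_listBool_le h
    rw [h2 h hh] at e3
    exact e3)
  have e3 : HV.length * (4 * (s.eval a * (S.eval a + 1)) + 1 + 1) ≤
      (s.eval a + 1) * (4 * (s.eval a * (S.eval a + 1)) + 2) := Nat.mul_le_mul_right _ h1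
  have e4 : (Qd s S).eval a = (4 * a + 1) +
      ((s.eval a + 1) * (4 * (s.eval a * (S.eval a + 1)) + 2) + 1) + 1 := by simp [Qd]
  omega

/-- **Completeness.** -/
theorem yd_complete (hs : Spec P A D e K M N)
    (hQ : ∀ zl, (Qd P.s P.S).eval (zl + P.C0) ≤ P.Q.eval zl)
    (n : ℕ) (qs : List (List Bool)) (hn : n + P.s.eval (n + P.C0) < qs.length)
    (hlen : ∀ y ∈ qs, y.length ≤ n) (r : List Bool)
    (hr : r.length = (P.T * P.L).eval (bits qs).length) :
    ∃ w : List Bool, w.length ≤ P.Q.eval (bits qs).length +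
      (12 * P.s.eval ((bits qs).length + P.C0) + 10 + P.T.eval (bits qs).length *
        (4 * P.s.eval ((bits qs).length + P.C0) + 2)) ∧
      ∃ l, yd P (pairBits (pairBits (bits qs) r) w) = some l := by
  classical
  set zl := (bits qs).length with hzl
  rw [Polynomial.eval_mul] at hr
  set a := n + P.C0 with ha
  have hqz : qs.length ≤ zl := sz_ge_length qs
  have haz : a ≤ zl + P.C0 := by omega
  have hya : ∀ y ∈ qs, y.length ≤ a := fun y hy => (hlen y hy).trans (Nat.le_add_right _ _)
  have hsz := eval_mono P.s haz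
  have hLz := hs.len zl
  set s := P.s.eval a with hsd
  have hFl : ∀ x ∈ BL s, (imf P.R s qs x).length ≤ P.S.eval a := fun x _ =>
    (hs.img a (Nat.le_add_left _ _) (sub s qs x) (sub_length_le _ _ _) (sub_le hya x)).2.2
  have hokd : ∀ HV : List (List Bool), HV.length ≤ s + 1 →
      (∀ h ∈ HV, h.length = s * (P.S.eval a + 1)) →
      okd P qs zl (List.replicate a true, HV) = true ∧
        (bits ((List.replicate a true, HV) : Cd)).length ≤ P.Q.eval zl := by
    intro HV h1 h2
    have h3 := (cd_size (s := P.s) (S := P.S) h1 h2).trans ((eval_mono _ haz).trans (hQ zl))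
    refine ⟨?_, h3⟩
    unfold okd
    simp only [Bool.and_eq_true, decide_eq_true_eq, List.all_eq_true, List.length_replicate]
    exact ⟨⟨⟨Nat.le_add_left _ _, haz⟩, hya, by omega⟩, h1, h3⟩
  have hsize : ∀ (c : Cd) (x x' : List Bool) (i : ℕ) (xs : List (List Bool)),
      (bits c).length ≤ P.Q.eval zl → x.length ≤ s → x'.length ≤ s → i ≤ s →
      xs.length ≤ P.T.eval zl → (∀ y ∈ xs, y.length ≤ s) →
      (bits ((c, (((x, x'), i), xs)) : Gd)).length ≤ P.Q.eval zl +
      (12 * P.s.eval (zl + P.C0) + 10 + P.T.eval zl * (4 * P.s.eval (zl + P.C0) + 2)) := by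
    intro c x x' i xs h1 h2 h3 h4 h5 h6
    rw [bits_length]
    rw [bits_length] at h1
    have e01 : sz ((c, (((x, x'), i), xs)) : Gd) = sz c + sz (((x, x'), i), xs) + 1 := sz_pair _ _
    have e02 : sz (((x, x'), i), xs) = sz ((x, x'), i) + sz xs + 1 := sz_pair _ _
    have e03 : sz ((x, x'), i) = sz (x, x') + sz i + 1 := sz_pair _ _
    have e04 : sz (x, x') = sz x + sz x' + 1 := sz_pair _ _
    have e1 := sz_listBool_le x
    have e2 := sz_listBool_le x'
    have e3 := sz_t_nat_le i _ h4
    have e4 := sz_le_length_mul xs (4 * P.s.eval (zl + P.C0) + 1) (fun y hy => by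
      have e5 := sz_listBool_le y
      have := h6 y hy
      omega)
    have e5 : xs.length * (4 * P.s.eval (zl + P.C0) + 1 + 1) ≤
        P.T.eval zl * (4 * P.s.eval (zl + P.C0) + 2) := Nat.mul_le_mul_right _ h5
    omega
  rcases coll_or_hash s (P.S.eval a) (imf P.R s qs) hFl with
    ⟨x, x', hx, hx', hne, hF⟩ | ⟨HV, hV1, hV2, hV3⟩
  · obtain ⟨i, hi, hd⟩ : ∃ i < s, x.getD i false ≠ x'.getD i false := by
      by_contra hcon
      push Not at hcon
      refine hne (List.ext_getElem (hx.trans hx'.symm) fun i h1 h2 => ?_)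
      have h3 := hcon i (by omega)
      rwa [List.getD_eq_getElem _ _ h1, List.getD_eq_getElem _ _ h2] at h3
    obtain ⟨o1, o2⟩ := hokd [] (by simp) (by simp)
    refine ⟨bits (((List.replicate a true, []), (((x, x'), i), [])) : Gd),
      hsize _ _ _ _ _ o2 hx.le hx'.le hi.le (by simp) (by simp), i + 1, ?_⟩
    unfold yd
    simp only [unpair_pairBits, dl_bits, dgd_bits]
    rw [← hzl, o1, cond_true]
    have h1 : cod P qs (List.replicate a true).length ((x, x'), i) = true := by
      unfold cod
      simp only [Bool.and_eq_true, decide_eq_true_eq, Bool.not_eq_true', decide_eq_false_iff_not,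
        List.length_replicate]
      exact ⟨hi, hF, hd⟩
    rw [h1, cond_true]
  · obtain ⟨o1, o2⟩ := hokd HV hV1.le hV2
    have hex : ∀ τ : ℕ, ∃ x : List Bool, x.length ≤ s ∧ (τ < P.T.eval zl →
        tsd P qs (List.replicate a true, HV) ((r.drop (τ * P.L.eval zl)).take (P.L.eval zl)) x =
          true) := by
      intro τ
      by_cases hτ : τ < P.T.eval zl
      · have hcl : ((r.drop (τ * P.L.eval zl)).take (P.L.eval zl)).length = P.L.eval zl := by
          rw [List.length_take, List.length_drop, hr]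
          have h3 : (τ + 1) * P.L.eval zl ≤ P.T.eval zl * P.L.eval zl := Nat.mul_le_mul_right _ hτ
          rw [Nat.add_mul, one_mul] at h3
          omega
        obtain ⟨x, hx, h, hh, he⟩ := hV3
          (((r.drop (τ * P.L.eval zl)).take (P.L.eval zl)).take s)
          (by rw [List.length_take, hcl]; omega)
        refine ⟨x, hx.le, fun _ => ?_⟩
        unfold tsd
        simp only [Bool.and_eq_true, decide_eq_true_eq, List.any_eq_true, List.length_replicate]
        exact ⟨hx, h, hh, he⟩
      · exact ⟨[], Nat.zero_le _, fun h => absurd h hτ⟩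
    choose xf hx1 hx2 using hex
    refine ⟨bits (((List.replicate a true, HV), ((([], []), 0),
      (List.range (P.T.eval zl)).map xf)) : Gd), hsize _ _ _ _ _ o2 (Nat.zero_le _)
      (Nat.zero_le _) (Nat.zero_le _) (by simp) (fun y hy => by
        obtain ⟨τ, -, rfl⟩ := List.mem_map.1 hy
        exact hx1 τ), ?_⟩
    unfold yd
    simp only [unpair_pairBits, dl_bits, dgd_bits]
    rw [← hzl, o1, cond_true]
    cases cod P qs (List.replicate a true, HV).1.length (([], []), 0)
    · rw [cond_false]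
      have h1 : ald P qs zl r (List.replicate a true, HV)
          ((List.range (P.T.eval zl)).map xf) = true := by
        unfold ald
        rw [List.all_eq_true]
        intro τ hτ
        have hτ' := List.mem_range.1 hτ
        have h1 : ((List.range (P.T.eval zl)).map xf).getD τ [] = xf τ := by
          rw [List.getD_eq_getElem?_getD, List.getElem?_map, List.getElem?_range hτ']
          rfl
        rw [h1]
        exact hx2 τ hτ'
      rw [h1, cond_true]
      exact ⟨_, rfl⟩
    · rw [cond_true]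
      exact ⟨_, rfl⟩

/-- **The protocol excludes a vector with public coins.** -/
theorem amfeasible_of_spec (hs : Spec P A D e K M N) (hR : Poly P.R)
    (hQ : ∀ zl, (Qd P.s P.S).eval (zl + P.C0) ≤ P.Q.eval zl) :
    AMFeasible (Exclude (Le e) A) := by
  obtain ⟨b, hb⟩ := exists_pow_add_bound (Polynomial.X + P.s.comp
    (Polynomial.X + Polynomial.C P.C0) + 1)
  have hbe : ∀ n, n + P.s.eval (n + P.C0) + 1 ≤ n ^ b + b := fun n => by
    have := hb n
    simpa using this
  refine ⟨yd P, P.T * P.L, P.Q + (Polynomial.C 12 * P.s.comp (Polynomial.X + Polynomial.C P.C0) +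
    10 + P.T * (Polynomial.C 4 * P.s.comp (Polynomial.X + Polynomial.C P.C0) + 2)), b, b,
    polyTime_bits (yd_poly P hR), fun n qs hqs hlen => ⟨fun r hr => ?_, ?_⟩⟩
  · obtain ⟨w, hw, l, hl⟩ := yd_complete hs hQ n qs (by have := hbe n; omega) hlen r hr
    refine ⟨l, w, hw.trans (le_of_eq ?_), hl⟩
    simp
  · refine le_trans (Nat.mul_le_mul_left _ (Set.ncard_le_ncard ?_ ?_)) (yd_sound hs qs)
    · rintro r ⟨hr, l, ⟨w, -, hw⟩, hl⟩
      refine ⟨hr, w, l, hw, ?_⟩
      rwa [hqs]
    · exact (str_finite _).subset fun r hr => hr.1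

end Pool.Agent.TH684.DN
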