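import Pool.Agent.TH684.DN.Com

/-!
# The protocol
-/

set_option autoImplicit false

namespace Pool.Agent.TH684.DN

open Pool.Agent.NPC Pool.Agent.H251R5.PQ Pool.Agent.W901.AT Pool.Agent.H579R2.Spt
open Pool.Agent.TH684.EX Pool.Agent.TH684.CX Pool.Agent.TH684.DI Pool.Agent.TH684.AM

/-- The image of a selection. -/
def imf (R : List Bool → List (List Bool)) (s : ℕ) (qs : List (List Bool)) (x : List Bool) :
    List Bool := bits (R (bits (sub s qs x)))

/-- Commitments: a unary number and matrices. -/
abbrev Cd : Type := List Bool × List (List Bool)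

/-- Guesses: a commitment, two selections, a position, and selections. -/
abbrev Gd : Type := Cd × (((List Bool × List Bool) × ℕ) × List (List Bool))

/-- Decoding of a guess. -/
def dgd (w : List Bool) : Gd := (unbits Gd w).getD default

theorem dgd_poly : Poly dgd := NPC.Poly.optGetD poly_unbits (NPC.Poly.const _)

theorem dgd_bits (g : Gd) : dgd (bits g) = g := by
  unfold dgd
  rw [unbits_bits, Option.getD_some]

/-- The data of the protocol. -/
structure Dat where
  /-- the reduction -/
  R : List Bool → List (List Bool)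
  /-- the length of the selections -/
  s : Polynomial ℕ
  /-- the bound for the lengths of the images -/
  S : Polynomial ℕ
  /-- the least unary number -/
  C0 : ℕ
  /-- the bound for the commitments -/
  Q : Polynomial ℕ
  /-- the number of targets -/
  T : Polynomial ℕ
  /-- the length of the targets -/
  L : Polynomial ℕ

/-- Conditions on a commitment. -/
noncomputable def okd (P : Dat) (qs : List (List Bool)) (zl : ℕ) (c : Cd) : Bool :=
  ((decide (P.C0 ≤ c.1.length) && decide (c.1.length ≤ zl + P.C0)) &&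
    (qs.all (fun y => decide (y.length ≤ c.1.length)) &&
      decide (P.s.eval c.1.length < qs.length))) &&
  (decide (c.2.length ≤ P.s.eval c.1.length + 1) && decide ((bits c).length ≤ P.Q.eval zl))

/-- A collision. -/
noncomputable def cod (P : Dat) (qs : List (List Bool)) (a : ℕ) (q : (List Bool × List Bool) × ℕ) :
    Bool :=
  decide (q.2 < P.s.eval a) &&
    (decide (imf P.R (P.s.eval a) qs q.1.1 = imf P.R (P.s.eval a) qs q.1.2) &&
      !decide (q.1.1.getD q.2 false = q.1.2.getD q.2 false))

/-- The test for one target. -/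
noncomputable def tsd (P : Dat) (qs : List (List Bool)) (c : Cd) (ch x : List Bool) : Bool :=
  decide (x.length = P.s.eval c.1.length) &&
    c.2.any (fun h => decide (hsh (P.S.eval c.1.length + 1) (P.s.eval c.1.length) h
      (imf P.R (P.s.eval c.1.length) qs x) = ch.take (P.s.eval c.1.length)))

/-- The tests for all targets. -/
noncomputable def ald (P : Dat) (qs : List (List Bool)) (zl : ℕ) (r : List Bool) (c : Cd)
    (xs : List (List Bool)) : Bool :=
  (List.range (P.T.eval zl)).all (fun τ =>
    tsd P qs c ((r.drop (τ * P.L.eval zl)).take (P.L.eval zl)) (xs.getD τ []))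

/-- The algorithm. -/
noncomputable def yd (P : Dat) (z : List Bool) : Option ℕ :=
  bif okd P (dl (unpair (unpair z).1).1) (unpair (unpair z).1).1.length (dgd (unpair z).2).1 then
    (bif cod P (dl (unpair (unpair z).1).1) (dgd (unpair z).2).1.1.length
        (dgd (unpair z).2).2.1 then some ((dgd (unpair z).2).2.1.2 + 1) else
      (bif ald P (dl (unpair (unpair z).1).1) (unpair (unpair z).1).1.length
          (unpair (unpair z).1).2 (dgd (unpair z).2).1 (dgd (unpair z).2).2.2 then
        some (dl (unpair (unpair z).1).1).length else none))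
  else none

/-! ### Polynomial time -/

section PolyLemmas

variable {α : Type} [TEnc α]

theorem sub_poly {s : α → ℕ} {qs : α → List (List Bool)} {x : α → List Bool} (hs : UPoly s)
    (hq : Poly qs) (hx : Poly x) : Poly (fun t => sub (s t) (qs t) (x t)) := by
  unfold sub
  refine NPC.Poly.cons (NPC.Poly.getD hq (NPC.Poly.const 0) (NPC.Poly.const []))
    (NPC.Poly.map (l := fun t => (List.range (s t)).filter (fun i => (x t).getD i false))
      (F := fun t i => (qs t).getD (i + 1) []) (NPC.Poly.filter (l := fun t => List.range (s t))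
      (p := fun t i => (x t).getD i false) hs.range ?_) ?_)
  · exact NPC.Poly.getD (hx.comp (NPC.Poly.fst NPC.Poly.id)) (NPC.Poly.snd NPC.Poly.id)
      (NPC.Poly.const false)
  · exact NPC.Poly.getD (hq.comp (NPC.Poly.fst NPC.Poly.id))
      (NPC.Poly.add (NPC.Poly.snd NPC.Poly.id) (NPC.Poly.const 1)) (NPC.Poly.const [])

theorem imf_poly {R : List Bool → List (List Bool)} (hR : Poly R) {s : α → ℕ}
    {qs : α → List (List Bool)} {x : α → List Bool} (hs : UPoly s)
    (hq : Poly qs) (hx : Poly x) : Poly (fun t => imf R (s t) (qs t) (x t)) :=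
  bits_poly.comp (hR.comp (bits_poly.comp (sub_poly hs hq hx)))

theorem okd_poly (P : Dat) {qs : α → List (List Bool)} {zl : α → ℕ} {c : α → Cd} (hq : Poly qs)
    (hz : UPoly zl) (hc : Poly c) : Poly (fun t => okd P (qs t) (zl t) (c t)) := by
  have ea : UPoly (fun t => (c t).1.length) := UPoly.length (NPC.Poly.fst hc)
  have es := (ea.eval P.s).toPoly
  unfold okd
  exact NPC.Poly.and (NPC.Poly.and (NPC.Poly.and
      (NPC.Poly.decide_le (NPC.Poly.const P.C0) ea.toPoly)
      (NPC.Poly.decide_le ea.toPoly (NPC.Poly.add hz.toPoly (NPC.Poly.const P.C0))))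
    (NPC.Poly.and (NPC.Poly.all (l := qs) (p := fun t y => decide (y.length ≤ (c t).1.length)) hq
      (NPC.Poly.decide_le (NPC.Poly.length (NPC.Poly.snd NPC.Poly.id))
        (ea.toPoly.comp (NPC.Poly.fst NPC.Poly.id))))
      (NPC.Poly.decide_lt es (NPC.Poly.length hq))))
    (NPC.Poly.and (NPC.Poly.decide_le (NPC.Poly.length (NPC.Poly.snd hc))
      (NPC.Poly.add es (NPC.Poly.const 1)))
      (NPC.Poly.decide_le (NPC.Poly.length (bits_poly.comp hc)) (hz.eval P.Q).toPoly))

theorem cod_poly (P : Dat) (hR : Poly P.R) {qs : α → List (List Bool)} {a : α → ℕ}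
    {q : α → (List Bool × List Bool) × ℕ} (hq : Poly qs) (ha : UPoly a) (hp : Poly q) :
    Poly (fun t => cod P (qs t) (a t) (q t)) := by
  have es := ha.eval P.s
  have e1 := NPC.Poly.fst (NPC.Poly.fst hp)
  have e2 := NPC.Poly.snd (NPC.Poly.fst hp)
  have e3 := NPC.Poly.snd hp
  unfold cod
  exact NPC.Poly.and (NPC.Poly.decide_lt e3 es.toPoly) (NPC.Poly.and
    (NPC.Poly.decide_eq (imf_poly hR es hq e1) (imf_poly hR es hq e2))
    (NPC.Poly.not (NPC.Poly.decide_eq (NPC.Poly.getD e1 e3 (NPC.Poly.const false))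
      (NPC.Poly.getD e2 e3 (NPC.Poly.const false)))))

theorem tsd_poly (P : Dat) (hR : Poly P.R) {qs : α → List (List Bool)} {c : α → Cd}
    {ch x : α → List Bool} (hq : Poly qs) (hc : Poly c) (hch : Poly ch) (hx : Poly x) :
    Poly (fun t => tsd P (qs t) (c t) (ch t) (x t)) := by
  have ea : UPoly (fun t => (c t).1.length) := UPoly.length (NPC.Poly.fst hc)
  have es := ea.eval P.s
  unfold tsd
  exact NPC.Poly.and (NPC.Poly.decide_eq (NPC.Poly.length hx) es.toPoly)
    (any_hsh_poly (NPC.Poly.add (ea.eval P.S).toPoly (NPC.Poly.const 1)) es (NPC.Poly.snd hc)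
      (imf_poly hR es hq hx) (take_poly' hch es.toPoly))

theorem ald_poly (P : Dat) (hR : Poly P.R) {qs : α → List (List Bool)} {zl : α → ℕ}
    {r : α → List Bool} {c : α → Cd} {xs : α → List (List Bool)} (hq : Poly qs) (hz : UPoly zl)
    (hr : Poly r) (hc : Poly c) (hx : Poly xs) :
    Poly (fun t => ald P (qs t) (zl t) (r t) (c t) (xs t)) := by
  unfold ald
  refine NPC.Poly.all (l := fun t => List.range (P.T.eval (zl t)))
    (p := fun t τ => tsd P (qs t) (c t) (((r t).drop (τ * P.L.eval (zl t))).take
      (P.L.eval (zl t))) ((xs t).getD τ [])) (hz.eval P.T).range ?_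
  have e1 : Poly (fun t : α × ℕ => t.1) := NPC.Poly.fst NPC.Poly.id
  have e2 : Poly (fun t : α × ℕ => t.2) := NPC.Poly.snd NPC.Poly.id
  have ec := ((hz.comp e1).eval P.L).toPoly
  exact tsd_poly P hR (hq.comp e1) (hc.comp e1)
    (take_poly' (drop_poly' (hr.comp e1) (NPC.Poly.mul e2 ec)) ec)
    (NPC.Poly.getD (hx.comp e1) e2 (NPC.Poly.const []))

end PolyLemmas

theorem yd_poly (P : Dat) (hR : Poly P.R) : Poly (yd P) := by
  have e1 : Poly (fun z : List Bool => (unpair (unpair z).1).1) :=
    NPC.Poly.fst (poly_unpair.comp (NPC.Poly.fst poly_unpair))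
  have e2 : Poly (fun z : List Bool => (unpair (unpair z).1).2) :=
    NPC.Poly.snd (poly_unpair.comp (NPC.Poly.fst poly_unpair))
  have e3 : Poly (fun z : List Bool => dgd (unpair z).2) :=
    dgd_poly.comp (NPC.Poly.snd poly_unpair)
  have e4 : Poly (fun z : List Bool => dl (unpair (unpair z).1).1) := dl_poly.comp e1
  have ea : UPoly (fun z : List Bool => (dgd (unpair z).2).1.1.length) :=
    UPoly.length (NPC.Poly.fst (NPC.Poly.fst e3))
  have e5 := NPC.Poly.fst (NPC.Poly.snd e3)
  unfold yd
  exact NPC.Poly.cond (okd_poly P e4 (UPoly.length e1) (NPC.Poly.fst e3))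
    (NPC.Poly.cond (cod_poly P hR e4 ea e5)
      (NPC.Poly.some (NPC.Poly.add (NPC.Poly.snd e5) (NPC.Poly.const 1)))
      (NPC.Poly.cond (ald_poly P hR e4 (UPoly.length e1) e2 (NPC.Poly.fst e3)
        (NPC.Poly.snd (NPC.Poly.snd e3))) (NPC.Poly.some (NPC.Poly.length e4))
        (NPC.Poly.const none)))
    (NPC.Poly.const none)

end Pool.Agent.TH684.DN
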