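import Pool.Agent.TH684.DN.Thm
import Pool.Agent.TH684.AM.Cls
import Pool.Agent.TH762.XC.Laws

/-!
# Sets of subexponential density and `PSPACE`
-/

set_option autoImplicit false

namespace Pool.Agent.TH684.DN

open Pool.Agent.NPC Pool.Agent.H251R5.PQ Pool.Agent.W901.AT Pool.Agent.H579R2.Spt
open Pool.Agent.TH684.EX Pool.Agent.TH684.CX Pool.Agent.TH684.DI Pool.Agent.TH684.AM
open Pool.Agent.TH684.LT (exists_pow_add_bound)
open Pool.Agent.W901.NU
open Pool.Agent.H623R2.PS (InPSPACE PSPACEHard)
open Pool.Agent.TH762.XC (FeasibleIn ComputableIn computableIn_of_cfn pspace_sub_of_excl)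
open Pool.Agent.W920.NL (InAM)
open Pool.Agent.W901.RL (card_BL_nat)

variable {P : Dat} {A D : Set (List Bool)} {e : Bool} {K M N : ℕ → ℕ}

/-- **If all answers are `!e` then there is a collision.** -/
theorem exists_coll (hs : Spec P A D e K M N) {n : ℕ} {qs : List (List Bool)} (hn : P.C0 ≤ n)
    (hlen : ∀ y ∈ qs, y.length ≤ n) (hb : qs.getD 0 [] ∈ A ↔ e = false) :
    ∃ x x' : List Bool, x.length = P.s.eval n ∧ x'.length = P.s.eval n ∧ x ≠ x' ∧
      imf P.R (P.s.eval n) qs x = imf P.R (P.s.eval n) qs x' := by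
  classical
  by_contra hcon
  push Not at hcon
  obtain ⟨F, hF1, hF2⟩ := images_card D (K n) (N n) (M n) (hs.dens _ hn)
  have hinj : Set.InjOn (imf P.R (P.s.eval n) qs) (BL (P.s.eval n)) := by
    intro x hx x' hx' h
    by_contra hne
    exact hcon x x' (mem_BL.1 (Finset.mem_coe.1 hx)) (mem_BL.1 (Finset.mem_coe.1 hx')) hne h
  have h1 : ((BL (P.s.eval n)).image (imf P.R (P.s.eval n) qs)).card = 2 ^ P.s.eval n := by
    rw [Finset.card_image_of_injOn hinj, card_BL_nat]
  have h2 : (BL (P.s.eval n)).image (imf P.R (P.s.eval n) qs) ⊆ F := by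
    intro y hy
    obtain ⟨x, _, rfl⟩ := Finset.mem_image.1 hy
    obtain ⟨g1, g2, -⟩ := hs.img _ hn (sub (P.s.eval n) qs x) (sub_length_le _ _ _)
      (sub_le hlen x)
    exact hF1 _ g1 fun y hy => ⟨g2 y hy, (hs.red _).2 (w_base hb x) y hy⟩
  have h3 := (Finset.card_le_card h2).trans hF2
  have h4 := hs.num n hn
  rw [h1] at h3
  have h5 : 1 ≤ 2 ^ ((M n + 1) * K n) := Nat.one_le_two_pow
  have h6 : 2 ^ ((M n + 1) * K n) ≤ (P.s.eval n + 1) * 2 ^ ((M n + 1) * K n) :=
    Nat.le_mul_of_pos_left _ (Nat.succ_pos _)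
  omega

/-- The check of a collision at the position `i`. -/
def chc (R : List Bool → List (List Bool)) (qs : List (List Bool)) (i : ℕ)
    (q : List Bool × List Bool) : Bool :=
  decide (imf R (qs.length - 1) qs q.1 = imf R (qs.length - 1) qs q.2) &&
    !decide (q.1.getD i false = q.2.getD i false)

/-- There is a collision at the position `i`. -/
def colP (R : List Bool → List (List Bool)) (t : List (List Bool) × ℕ) : Prop :=
  ∃ q : List Bool × List Bool, sz q ≤ (Polynomial.C 8 * Polynomial.X + 3 : Polynomial ℕ).eval (sz t) ∧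
    chc R t.1 t.2 q = true

/-- The first position with the entry `true`, plus one, and `m` if there is none. -/
def pick (bs : List Bool) (m : ℕ) : ℕ :=
  (((List.range bs.length).filter (fun i => bs.getD i false)).head?.map (fun i => i + 1)).getD m

open Classical in
/-- The output. -/
noncomputable def xo (R : List Bool → List (List Bool)) (z : List Bool) : ℕ :=
  pick ((List.range ((dp z).1.length - 1)).map (fun i => decide (colP R ((dp z).1, i))))
    (dp z).1.length

theorem colP_cpr {C : Set (List Bool) → Prop} (hC : Cl C) {R : List Bool → List (List Bool)}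
    (hR : Poly R) : CPr C (colP R) := by
  have e1 : Poly (fun t : (List (List Bool) × ℕ) × (List Bool × List Bool) => t.1.1) :=
    NPC.Poly.fst (NPC.Poly.fst NPC.Poly.id)
  have e2 : Poly (fun t : (List (List Bool) × ℕ) × (List Bool × List Bool) => t.1.2) :=
    NPC.Poly.snd (NPC.Poly.fst NPC.Poly.id)
  have e3 : Poly (fun t : (List (List Bool) × ℕ) × (List Bool × List Bool) => t.2.1) :=
    NPC.Poly.fst (NPC.Poly.snd NPC.Poly.id)
  have e4 : Poly (fun t : (List (List Bool) × ℕ) × (List Bool × List Bool) => t.2.2) :=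
    NPC.Poly.snd (NPC.Poly.snd NPC.Poly.id)
  have u1 : UPoly (fun t : (List (List Bool) × ℕ) × (List Bool × List Bool) =>
      t.1.1.length - 1) := (UPoly.length (NPC.Poly.tail e1)).congr fun t => by simp
  have h1 : Poly (fun t : (List (List Bool) × ℕ) × (List Bool × List Bool) =>
      chc R t.1.1 t.1.2 t.2) := by
    unfold chc
    exact NPC.Poly.and (NPC.Poly.decide_eq (imf_poly hR u1 e1 e3) (imf_poly hR u1 e1 e4))
      (NPC.Poly.not (NPC.Poly.decide_eq (NPC.Poly.getD e3 e2 (NPC.Poly.const false))
        (NPC.Poly.getD e4 e2 (NPC.Poly.const false))))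
  exact CPr.ex hC (CPr.poly hC h1) _

theorem pick_poly : Poly (fun q : List Bool × ℕ => pick q.1 q.2) := by
  unfold pick
  refine NPC.Poly.optGetD (o := fun q : List Bool × ℕ =>
    ((List.range q.1.length).filter (fun i => q.1.getD i false)).head?.map (fun i => i + 1))
    (g := fun q : List Bool × ℕ => q.2) ?_ (NPC.Poly.snd NPC.Poly.id)
  refine NPC.Poly.optMap (o := fun q : List Bool × ℕ =>
    ((List.range q.1.length).filter (fun i => q.1.getD i false)).head?)
    (f := fun (_ : List Bool × ℕ) (i : ℕ) => i + 1) ?_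
    (NPC.Poly.add (NPC.Poly.snd NPC.Poly.id) (NPC.Poly.const 1))
  refine NPC.Poly.head? (NPC.Poly.filter (l := fun q : List Bool × ℕ => List.range q.1.length)
    (p := fun q i => q.1.getD i false) (UPoly.length (NPC.Poly.fst NPC.Poly.id)).range ?_)
  exact NPC.Poly.getD (NPC.Poly.fst (NPC.Poly.fst NPC.Poly.id)) (NPC.Poly.snd NPC.Poly.id)
    (NPC.Poly.const false)

open Classical in
/-- The list of the positions with collisions. -/
noncomputable def cps (R : List Bool → List (List Bool)) (z : List Bool) : List Bool :=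
  (List.range ((dp z).1.length - 1)).map (fun i => decide (colP R ((dp z).1, i)))

theorem xo_eq (R : List Bool → List (List Bool)) (z : List Bool) :
    xo R z = pick (cps R z) (dp z).1.length := rfl

theorem cps_cfn {C : Set (List Bool) → Prop} (hC : Cl C) {R : List Bool → List (List Bool)}
    (hR : Poly R) : CFn C (cps R) := by
  classical
  have e1 : Poly (fun z : List Bool => (dp z).1) := NPC.Poly.fst dp_poly
  have u1 : UPoly (fun z : List Bool => (dp z).1.length - 1) :=
    (UPoly.length (NPC.Poly.tail e1)).congr fun t => by simp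
  have h0 : CPr C (fun q : List Bool × ℕ => colP R ((dp q.1).1, q.2)) :=
    (colP_cpr hC hR).comp hC (f := fun q : List Bool × ℕ => ((dp q.1).1, q.2))
      (NPC.Poly.pair (e1.comp (NPC.Poly.fst NPC.Poly.id)) (NPC.Poly.snd NPC.Poly.id))
  exact CFn.map hC (l := fun z : List Bool => List.range ((dp z).1.length - 1))
    (F := fun q : List Bool × ℕ => decide (colP R ((dp q.1).1, q.2))) u1.range (CFn.dec hC h0)

theorem xo_cfn {C : Set (List Bool) → Prop} (hC : Cl C) {R : List Bool → List (List Bool)}
    (hR : Poly R) : CFn C (xo R) := by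
  have e1 : Poly (fun z : List Bool => (dp z).1) := NPC.Poly.fst dp_poly
  have h3 : CFn C (fun z : List Bool => (cps R z, (dp z).1.length)) :=
    CFn.pair hC (f := cps R) (g := fun z : List Bool => (dp z).1.length) (cps_cfn hC hR)
      (CFn.poly hC (NPC.Poly.length e1))
  have h4 : CFn C (fun q : List Bool × ℕ => pick q.1 q.2) := CFn.poly hC pick_poly
  have h5 := CFn.comp hC (g := fun q : List Bool × ℕ => pick q.1 q.2)
    (f := fun z : List Bool => (cps R z, (dp z).1.length)) h4 h3
  exact h5.congr fun z => (xo_eq R z).symm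

theorem pick_spec (bs : List Bool) (m : ℕ) :
    (∃ i < bs.length, bs.getD i false = true ∧ pick bs m = i + 1) ∨
      ((∀ i < bs.length, bs.getD i false = false) ∧ pick bs m = m) := by
  unfold pick
  cases h : ((List.range bs.length).filter (fun i => bs.getD i false)).head? with
  | none =>
    right
    rw [List.head?_eq_none_iff] at h
    refine ⟨fun i hi => ?_, rfl⟩
    by_contra h1
    rw [Bool.not_eq_false] at h1
    have h2 : i ∈ (List.range bs.length).filter (fun i => bs.getD i false) :=
      List.mem_filter.2 ⟨List.mem_range.2 hi, h1⟩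
    rw [h] at h2
    exact absurd h2 List.not_mem_nil
  | some i =>
    left
    have h1 := List.mem_of_mem_head? h
    rw [List.mem_filter, List.mem_range] at h1
    exact ⟨i, h1.1, h1.2, rfl⟩

/-- **Exclusion in a class.** -/
theorem feasibleIn_of_spec {C : Set (List Bool) → Prop} (hC : Cl C) (hs : Spec P A D e K M N)
    (hR : Poly P.R) : FeasibleIn C (Exclude (Le e) A) := by
  classical
  obtain ⟨b, hb⟩ := exists_pow_add_bound (P.s.comp (Polynomial.X + Polynomial.C P.C0) + 1)
  have hbe : ∀ n, P.s.eval (n + P.C0) + 1 ≤ n ^ b + b := fun n => by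
    have := hb n
    simpa using this
  refine ⟨xo P.R, b, computableIn_of_cfn hC (xo_cfn hC hR), fun n =>
    ⟨P.s.eval (n + P.C0) + 1, 0, hbe n, Nat.zero_le _, fun qs hqs hlen => ?_⟩⟩
  have hs1 : qs.length - 1 = P.s.eval (n + P.C0) := by omega
  have hlen' : ∀ y ∈ qs, y.length ≤ n + P.C0 := fun y hy =>
    (hlen y hy).trans (Nat.le_add_right _ _)
  set bs := (List.range (qs.length - 1)).map (fun i => decide (colP P.R (qs, i))) with hbs
  have hbl : bs.length = P.s.eval (n + P.C0) := by
    rw [hbs, List.length_map, List.length_range, hs1]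
  have hbg : ∀ i < P.s.eval (n + P.C0), bs.getD i false = decide (colP P.R (qs, i)) := by
    intro i hi
    rw [List.getD_eq_getElem _ _ (by omega)]
    simp [hbs]
  have hxo : xo P.R (bits (qs, 0)) = pick bs qs.length := by
    unfold xo
    simp only [dp_bits]
    rw [hbs]
  rw [hxo]
  rcases pick_spec bs qs.length with ⟨i, hi, h1, h2⟩ | ⟨h1, h2⟩
  · rw [h2]
    rw [hbl] at hi
    refine ⟨by have := hbe n; omega, fun hv => ?_⟩
    rw [hbg i hi, decide_eq_true_iff] at h1
    obtain ⟨q, -, hq⟩ := h1
    unfold chc at hq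
    simp only [Bool.and_eq_true, decide_eq_true_eq, Bool.not_eq_true',
      decide_eq_false_iff_not] at hq
    obtain ⟨q1, q2⟩ := hq
    rw [hs1] at q1
    have h4 := exc_of_vec hv
    have h5 : ∀ j < P.s.eval (n + P.C0) + 1,
        ((qs.getD j [] ∈ A ↔ e = false) ↔ j = i + 1) := fun j hj => by
      rw [h4 j (by omega)]
      exact ⟨fun h => h (by omega), fun h _ => h⟩
    have h6 : P.R (bits (sub (P.s.eval (n + P.C0)) qs q.1)) =
        P.R (bits (sub (P.s.eval (n + P.C0)) qs q.2)) := bits_injective q1
    have h7 := hs.red (sub (P.s.eval (n + P.C0)) qs q.1)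
    rw [h6, hs.red, w_exc h5 hi, w_exc h5 hi] at h7
    exact q2 (Bool.eq_iff_iff.2 h7.symm)
  · rw [h2]
    refine ⟨by have := hbe n; omega, fun hv => ?_⟩
    have h8 : qs.getD 0 [] ∈ A ↔ e = false :=
      (exc_of_vec hv 0 (by omega)).2 (fun h => absurd h (lt_irrefl _))
    obtain ⟨x, x', hx, hx', hne, hF⟩ := exists_coll hs (Nat.le_add_left P.C0 n) hlen' h8
    obtain ⟨i, hi, hd⟩ : ∃ i < P.s.eval (n + P.C0), x.getD i false ≠ x'.getD i false := by
      by_contra hcon
      push Not at hcon
      refine hne (List.ext_getElem (hx.trans hx'.symm) fun i h1 h2 => ?_)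
      have h3 := hcon i (by omega)
      rwa [List.getD_eq_getElem _ _ h1, List.getD_eq_getElem _ _ h2] at h3
    have h9 := h1 i (by omega)
    rw [hbg i hi, decide_eq_false_iff_not] at h9
    refine h9 ⟨(x, x'), ?_, ?_⟩
    · have s1 := sz_listBool_le x
      have s2 := sz_listBool_le x'
      have s3 : sz (x, x') = sz x + sz x' + 1 := sz_pair _ _
      have s4 : sz (qs, i) = sz qs + sz i + 1 := sz_pair _ _
      have s5 := length_lt_sz qs
      simp only [Polynomial.eval_add, Polynomial.eval_mul, Polynomial.eval_C, Polynomial.eval_X,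
        Polynomial.eval_ofNat]
      omega
    · unfold chc
      simp only [Bool.and_eq_true, decide_eq_true_eq, Bool.not_eq_true', decide_eq_false_iff_not]
      rw [hs1]
      exact ⟨hF, hd⟩

end Pool.Agent.TH684.DN
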