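import Pool.Agent.TH684.DN.Main
import Pool.Agent.W920.LN.Red

/-!
# Sets of subexponential density and `NP`
-/

set_option autoImplicit false

namespace Pool.Agent.TH684.DN

open Pool.Agent.NPC Pool.Agent.H251R5.PQ Pool.Agent.W901.AT Pool.Agent.H579R2.Spt
open Pool.Agent.TH684.EX Pool.Agent.TH684.CX Pool.Agent.TH684.DI Pool.Agent.TH684.AM
open Pool.Agent.TH684.LT (exists_pow_add_bound)
open Pool.Agent.W920.LN (inNP_of)
open Pool.Agent.W920.NL (InAM)

/-! ### Lists of strings in a set in `NP` -/

theorem inNP_some {A : Set (List Bool)} (hA : InNP A) :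
    InNP (lang (fun L : List (List Bool) => ∃ y ∈ L, y ∈ A)) := by
  obtain ⟨V, p, hV, hVA⟩ := hA
  have hm : ∀ y, y ∈ A ↔ ∃ w, ver V p y w = true := fun y => by
    rw [hVA y]
    exact ⟨fun ⟨w, hw⟩ => ⟨w, ver_iff.2 hw⟩, fun ⟨w, hw⟩ => ⟨w, ver_iff.1 hw⟩⟩
  refine inNP_of (β := List (List Bool)) (R := fun q : List Bool × List (List Bool) =>
    decide (bits (dl q.1) = q.1) && ((List.range (dl q.1).length).any (fun i =>
      ver V p ((dl q.1).getD i []) (q.2.getD 0 [])))) ?_
    (Polynomial.C 4 * p + 3) fun x => ?_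
  · have e1 : Poly (fun q : List Bool × List (List Bool) => q.1) := NPC.Poly.fst NPC.Poly.id
    have e2 : Poly (fun q : List Bool × List (List Bool) => dl q.1) := dl_poly.comp e1
    refine NPC.Poly.and (NPC.Poly.decide_eq (bits_poly.comp e2) e1)
      (NPC.Poly.any (l := fun q : List Bool × List (List Bool) => List.range (dl q.1).length)
        (p := fun q i => ver V p ((dl q.1).getD i []) (q.2.getD 0 []))
        (UPoly.length e2).range ?_)
    have f1 : Poly (fun t : (List Bool × List (List Bool)) × ℕ => t.1) := NPC.Poly.fst NPC.Poly.id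
    exact (ver_poly hV p).comp (NPC.Poly.pair (NPC.Poly.getD (e2.comp f1)
      (NPC.Poly.snd NPC.Poly.id) (NPC.Poly.const [])) (NPC.Poly.getD
        ((NPC.Poly.snd NPC.Poly.id).comp f1) (NPC.Poly.const 0) (NPC.Poly.const [])))
  · simp only [Bool.and_eq_true, decide_eq_true_eq, List.any_eq_true, List.mem_range]
    constructor
    · rintro ⟨L, rfl, y, hy, hyA⟩
      obtain ⟨w, hw⟩ := (hVA y).1 hyA
      obtain ⟨i, hi, rfl⟩ := List.mem_iff_getElem.1 hy
      refine ⟨[w], ?_, by rw [dl_bits], i, by rw [dl_bits]; exact hi, ?_⟩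
      · have h1 := sz_le_length_mul [w] (4 * p.eval (bits L).length + 1) (fun u hu => by
          rw [List.mem_singleton] at hu
          subst hu
          have h2 := sz_listBool_le u
          have h3 := hw.1
          have h4 : p.eval L[i].length ≤ p.eval (bits L).length := by
            refine eval_mono p ?_
            have e1 := sz_le_of_mem (List.getElem_mem hi)
            have e2 := length_lt_sz L[i]
            have e3 := bits_length L
            omega
          omega)
        simp only [List.length_singleton, one_mul] at h1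
        simp only [Polynomial.eval_add, Polynomial.eval_mul, Polynomial.eval_C,
          Polynomial.eval_ofNat]
        omega
      · rw [dl_bits, List.getD_eq_getElem _ _ hi]
        exact ver_iff.2 hw
    · rintro ⟨ws, -, h1, i, hi, h2⟩
      refine ⟨dl x, h1, (dl x).getD i [], ?_, (hm _).2 ⟨_, h2⟩⟩
      rw [List.getD_eq_getElem _ _ hi]
      exact List.getElem_mem hi

theorem inNP_every {A : Set (List Bool)} (hA : InNP A) :
    InNP (lang (fun L : List (List Bool) => ∀ y ∈ L, y ∈ A)) := by
  obtain ⟨V, p, hV, hVA⟩ := hA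
  have hm : ∀ y, y ∈ A ↔ ∃ w, ver V p y w = true := fun y => by
    rw [hVA y]
    exact ⟨fun ⟨w, hw⟩ => ⟨w, ver_iff.2 hw⟩, fun ⟨w, hw⟩ => ⟨w, ver_iff.1 hw⟩⟩
  refine inNP_of (β := List (List Bool)) (R := fun q : List Bool × List (List Bool) =>
    decide (bits (dl q.1) = q.1) && ((List.range (dl q.1).length).all (fun i =>
      ver V p ((dl q.1).getD i []) (q.2.getD i [])))) ?_
    (Polynomial.X * (Polynomial.C 4 * p + 2) + 1) fun x => ?_
  · have e1 : Poly (fun q : List Bool × List (List Bool) => q.1) := NPC.Poly.fst NPC.Poly.id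
    have e2 : Poly (fun q : List Bool × List (List Bool) => dl q.1) := dl_poly.comp e1
    refine NPC.Poly.and (NPC.Poly.decide_eq (bits_poly.comp e2) e1)
      (NPC.Poly.all (l := fun q : List Bool × List (List Bool) => List.range (dl q.1).length)
        (p := fun q i => ver V p ((dl q.1).getD i []) (q.2.getD i []))
        (UPoly.length e2).range ?_)
    have f1 : Poly (fun t : (List Bool × List (List Bool)) × ℕ => t.1) := NPC.Poly.fst NPC.Poly.id
    exact (ver_poly hV p).comp (NPC.Poly.pair (NPC.Poly.getD (e2.comp f1)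
      (NPC.Poly.snd NPC.Poly.id) (NPC.Poly.const [])) (NPC.Poly.getD
        ((NPC.Poly.snd NPC.Poly.id).comp f1) (NPC.Poly.snd NPC.Poly.id) (NPC.Poly.const [])))
  · simp only [Bool.and_eq_true, decide_eq_true_eq, List.all_eq_true, List.mem_range]
    constructor
    · rintro ⟨L, rfl, hL⟩
      have hw : ∀ i : ℕ, ∃ w : List Bool, w.length ≤ p.eval (bits L).length ∧
          (i < L.length → ver V p (L.getD i []) w = true) := by
        intro i
        by_cases hi : i < L.length
        · obtain ⟨w, hw⟩ := (hVA _).1 (hL _ (List.getElem_mem hi))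
          refine ⟨w, hw.1.trans (eval_mono p ?_), fun _ => ?_⟩
          · have e1 := sz_le_of_mem (List.getElem_mem hi)
            have e2 := length_lt_sz L[i]
            have e3 := bits_length L
            omega
          · rw [List.getD_eq_getElem _ _ hi]
            exact ver_iff.2 hw
        · exact ⟨[], Nat.zero_le _, fun h => absurd h hi⟩
      choose f hf1 hf2 using hw
      refine ⟨(List.range L.length).map f, ?_, by rw [dl_bits], fun i hi => ?_⟩
      · have h1 := sz_le_length_mul ((List.range L.length).map f)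
          (4 * p.eval (bits L).length + 1) (fun u hu => by
            obtain ⟨i, -, rfl⟩ := List.mem_map.1 hu
            have h2 := sz_listBool_le (f i)
            have h3 := hf1 i
            omega)
        rw [List.length_map, List.length_range] at h1
        have h2 : L.length * (4 * p.eval (bits L).length + 1 + 1) ≤
            (bits L).length * (4 * p.eval (bits L).length + 2) :=
          Nat.mul_le_mul_right _ (sz_ge_length L)
        simp only [Polynomial.eval_add, Polynomial.eval_mul, Polynomial.eval_C,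
          Polynomial.eval_ofNat, Polynomial.eval_X, Polynomial.eval_one]
        omega
      · rw [dl_bits] at hi ⊢
        have h1 : ((List.range L.length).map f).getD i [] = f i := by
          rw [List.getD_eq_getElem?_getD, List.getElem?_map, List.getElem?_range hi]
          rfl
        rw [h1]
        exact hf2 i hi
    · rintro ⟨ws, -, h1, h2⟩
      refine ⟨dl x, h1, fun y hy => ?_⟩
      obtain ⟨i, hi, rfl⟩ := List.mem_iff_getElem.1 hy
      have h3 := h2 i hi
      rw [List.getD_eq_getElem _ _ hi] at h3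
      exact (hm _).2 ⟨_, h3⟩

/-! ### The parameters -/

theorem two_mul_succ_le {s : ℕ} (hs : 16 ≤ s) : 2 * (s + 1) ≤ 2 ^ (s / 2) := by
  have h1 : ∀ m, 8 ≤ m → 4 * m + 4 ≤ 2 ^ m := by
    intro m hm
    induction m, hm using Nat.le_induction with
    | base => norm_num
    | succ m hm ih => rw [pow_succ]; omega
  have h2 := h1 (s / 2) (by omega)
  omega

theorem num_bound {u κ : ℕ} (hu : 2 ≤ u) (hκ : 1 ≤ κ) :
    2 * ((u ^ (κ + 3) + 1) * 2 ^ ((u + 1) * u ^ κ)) ≤ 2 ^ u ^ (κ + 3) := by
  set s := u ^ (κ + 3) with hs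
  have h1 : 16 ≤ s := by
    calc 16 = 2 ^ 4 := by norm_num
      _ ≤ u ^ 4 := Nat.pow_le_pow_left hu 4
      _ ≤ u ^ (κ + 3) := Nat.pow_le_pow_right (by omega) (by omega)
  have h2 : 2 * ((u + 1) * u ^ κ) ≤ s := by
    rw [hs, pow_add, mul_comm (u ^ κ) (u ^ 3), ← mul_assoc]
    refine Nat.mul_le_mul_right _ ?_
    have h3 : 4 * u ≤ u ^ 3 := by
      rw [pow_succ]
      refine Nat.mul_le_mul_right _ ?_
      calc 4 = 2 ^ 2 := by norm_num
        _ ≤ u ^ 2 := Nat.pow_le_pow_left hu 2
    omega
  calc 2 * ((s + 1) * 2 ^ ((u + 1) * u ^ κ)) = 2 * (s + 1) * 2 ^ ((u + 1) * u ^ κ) := by ring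
    _ ≤ 2 ^ (s / 2) * 2 ^ ((u + 1) * u ^ κ) := Nat.mul_le_mul_right _ (two_mul_succ_le h1)
    _ = 2 ^ (s / 2 + (u + 1) * u ^ κ) := by rw [← pow_add]
    _ ≤ 2 ^ s := Nat.pow_le_pow_right (by norm_num) (by omega)

theorem code_bound {u κ w m : ℕ} (hu : 2 ≤ u) (hw : w ≤ u ^ (κ + 3) + 1) (hm : m + 2 ≤ 4 * u) :
    w * m + 1 ≤ u ^ (κ + 7) := by
  have h1 : 1 ≤ u ^ (κ + 3) := Nat.one_le_pow _ _ (by omega)
  have h2 : w * (m + 1) ≤ (2 * u ^ (κ + 3)) * (4 * u) := Nat.mul_le_mul (by omega) (by omega)
  have h3 : 2 ^ 3 ≤ u ^ 3 := Nat.pow_le_pow_left hu 3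
  have h4 : (2 * u ^ (κ + 3)) * (4 * u) ≤ u ^ (κ + 7) := by
    calc (2 * u ^ (κ + 3)) * (4 * u) = 2 ^ 3 * (u ^ (κ + 3) * u) := by ring
      _ ≤ u ^ 3 * (u ^ (κ + 3) * u) := Nat.mul_le_mul_right _ h3
      _ = u ^ (κ + 7) := by ring
  rcases Nat.eq_zero_or_pos w with h5 | h5
  · subst h5
    rw [zero_mul]
    exact Nat.one_le_pow _ _ (by omega)
  · have h6 : w * m + 1 ≤ w * (m + 1) := by
      rw [Nat.mul_add, mul_one]
      omega
    exact h6.trans (h2.trans h4)

/-- The data for a conjunctive reduction to a set of subexponential density. -/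
theorem exists_spec {A D : Set (List Bool)} (e : Bool) (hD : SubExp D)
    {R : List Bool → List (List Bool)} {c d : ℕ} (hR : PolyTime (fun z => bits (R z)))
    (hlen : ∀ z : List Bool, (R z).length ^ (d + 1) ≤ c * z.length ^ d + c)
    (hred : ∀ L : List (List Bool), (∀ y ∈ R (bits L), y ∈ D) ↔ W A e L) :
    ∃ (P : Dat) (K M N : ℕ → ℕ), Spec P A D e K M N ∧ Poly P.R ∧
      ∀ zl, (Qd P.s P.S).eval (zl + P.C0) ≤ P.Q.eval zl := by
  have hRp : Poly R := poly_of_bits' hR
  obtain ⟨p1, hp1⟩ := (bits_poly.comp hRp).sz_le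
  obtain ⟨pR, hpR⟩ : ∃ pR : Polynomial ℕ, ∀ z : List Bool, (bits (R z)).length ≤ pR.eval z.length := by
    refine ⟨p1.comp (Polynomial.C 4 * Polynomial.X + 1), fun z => ?_⟩
    have h1 := hp1 z
    have h2 := length_lt_sz (bits (R z))
    have h3 := eval_mono p1 (sz_listBool_le z)
    simp only [Polynomial.eval_comp, Polynomial.eval_add, Polynomial.eval_mul, Polynomial.eval_C,
      Polynomial.eval_X, Polynomial.eval_one]
    omega
  set κ : ℕ := 7 * d + 1 with hκ
  obtain ⟨b0, hb0⟩ := exists_pow_add_bound (pR.comp (Polynomial.X ^ (κ + 7)))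
  obtain ⟨n0, hn0⟩ := hD (b0 + 2)
  set C0 : ℕ := n0 + b0 + 2 * c with hC0
  set s : Polynomial ℕ := (Polynomial.X + 2) ^ (κ + 3) with hs
  have hse : ∀ a, s.eval a = (a + 2) ^ (κ + 3) := fun a => by simp [hs]
  set S : Polynomial ℕ := pR.comp ((Polynomial.X + 2) ^ (κ + 7)) with hS
  have hSe : ∀ a, S.eval a = pR.eval ((a + 2) ^ (κ + 7)) := fun a => by simp [hS]
  set P : Dat := {
    R := R
    s := s
    S := S
    C0 := C0
    Q := (Qd s S).comp (Polynomial.X + Polynomial.C C0)
    T := (Qd s S).comp (Polynomial.X + Polynomial.C C0) + 1 + (Polynomial.C 2 * Polynomial.X + 3)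
    L := s.comp (Polynomial.X + Polynomial.C C0) } with hP
  refine ⟨P, fun a => (a + 2) ^ κ, fun a => a + 2, fun a => (a + 2) ^ (b0 + 2),
    ⟨hred, ?_, ?_, ?_, ?_, ?_⟩, hRp, ?_⟩
  · intro a ha L hL hLa
    have ha' : n0 + b0 + 2 * c ≤ a := ha
    have hL' : L.length ≤ (a + 2) ^ (κ + 3) + 1 := by
      have : L.length ≤ s.eval a + 1 := hL
      rwa [hse] at this
    have hz : (bits L).length ≤ (a + 2) ^ (κ + 7) :=
      (bits_list_le hL' hLa).trans (code_bound (by omega) le_rfl (by omega))
    have hb : (bits (R (bits L))).length ≤ pR.eval ((a + 2) ^ (κ + 7)) :=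
      (hpR _).trans (eval_mono pR hz)
    refine ⟨?_, fun y hy => ?_, ?_⟩
    · have h1 : (R (bits L)).length ^ (d + 1) ≤ ((a + 2) ^ κ) ^ (d + 1) := by
        refine (hlen (bits L)).trans ?_
        have h2 : (bits L).length ^ d ≤ ((a + 2) ^ (κ + 7)) ^ d := Nat.pow_le_pow_left hz d
        have h3 : 1 ≤ ((a + 2) ^ (κ + 7)) ^ d := Nat.one_le_pow _ _ (Nat.pos_of_ne_zero (by positivity))
        calc c * (bits L).length ^ d + c
            ≤ c * ((a + 2) ^ (κ + 7)) ^ d + c * ((a + 2) ^ (κ + 7)) ^ d :=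
              Nat.add_le_add (Nat.mul_le_mul_left _ h2) (Nat.le_mul_of_pos_right _ h3)
          _ = (2 * c) * ((a + 2) ^ (κ + 7)) ^ d := by ring
          _ ≤ (a + 2) * ((a + 2) ^ (κ + 7)) ^ d := Nat.mul_le_mul_right _ (by omega)
          _ = ((a + 2) ^ κ) ^ (d + 1) := by
              rw [← pow_mul, ← pow_mul, ← pow_succ']
              congr 1
              rw [hκ]
              ring
      exact (Nat.pow_le_pow_iff_left (Nat.succ_ne_zero d)).1 h1
    · have h1 : y.length ≤ (bits (R (bits L))).length := by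
        have hy' : y ∈ R (bits L) := hy
        have e1 := sz_le_of_mem hy'
        have e2 := length_lt_sz y
        have e3 := bits_length (R (bits L))
        omega
      have h2 := hb0 (a + 2)
      rw [Polynomial.eval_comp, Polynomial.eval_pow, Polynomial.eval_X] at h2
      refine h1.trans (hb.trans (h2.trans ?_))
      have h3 : (a + 2) ^ b0 ≤ (a + 2) ^ (b0 + 1) := Nat.pow_le_pow_right (by omega) (by omega)
      have h4 : a + 2 ≤ (a + 2) ^ (b0 + 1) := Nat.le_self_pow (by omega) _
      calc (a + 2) ^ b0 + b0 ≤ 2 * (a + 2) ^ (b0 + 1) := by omega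
        _ ≤ (a + 2) * (a + 2) ^ (b0 + 1) := Nat.mul_le_mul_right _ (by omega)
        _ = (a + 2) ^ (b0 + 2) := by ring
    · change (bits (R (bits L))).length ≤ S.eval a
      rw [hSe]
      exact hb
  · intro a ha
    have ha' : n0 + b0 + 2 * c ≤ a := ha
    exact hn0 (a + 2) (by omega)
  · intro a ha
    change 2 * ((s.eval a + 1) * 2 ^ ((a + 2 + 1) * (a + 2) ^ κ)) ≤ 2 ^ s.eval a
    rw [hse]
    exact num_bound (by omega) (by omega)
  · intro zl
    change s.eval (zl + C0) ≤ (s.comp (Polynomial.X + Polynomial.C C0)).eval zl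
    simp
  · intro zl
    change ((Qd s S).comp (Polynomial.X + Polynomial.C C0)).eval zl + 1 + (2 * zl + 3) ≤
      ((Qd s S).comp (Polynomial.X + Polynomial.C C0) + 1 +
        (Polynomial.C 2 * Polynomial.X + 3)).eval zl
    simp
  · intro zl
    change (Qd s S).eval (zl + C0) ≤ ((Qd s S).comp (Polynomial.X + Polynomial.C C0)).eval zl
    simp

/-- **The protocol for a conjunctive reduction to a set of subexponential density.** -/
theorem amfeasible_of_red {A D : Set (List Bool)} (e : Bool) (hD : SubExp D)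
    {R : List Bool → List (List Bool)} {c d : ℕ} (hR : PolyTime (fun z => bits (R z)))
    (hlen : ∀ z : List Bool, (R z).length ^ (d + 1) ≤ c * z.length ^ d + c)
    (hred : ∀ L : List (List Bool), (∀ y ∈ R (bits L), y ∈ D) ↔ W A e L) :
    AMFeasible (Exclude (Le e) A) := by
  obtain ⟨P, K, M, N, hs, hRp, hQ⟩ := exists_spec e hD hR hlen hred
  exact amfeasible_of_spec hs hRp hQ

/-- **Reductions to a set of subexponential density put `coNP` in `AM`.** -/
theorem inAM_of_dens {D : Set (List Bool)} (hD : SubExp D)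
    (h : (∀ S : Set (List Bool), InNP S → ConjReduces S D) ∨
      (∀ S : Set (List Bool), InNP S → ConjReduces Sᶜ D)) {S : Set (List Bool)} (hS : InNP S) :
    InAM Sᶜ := by
  obtain ⟨A, hA1, hA2⟩ := exists_nphard
  rcases h with h | h
  · obtain ⟨R, c, d, hR, hs⟩ := h _ (inNP_some hA1)
    refine inAM_of_amfeasible hA2 (le_inP false) (amfeasible_of_red false hD hR
      (fun z => (hs z).1) fun L => ?_) hS
    rw [← (hs (bits L)).2, bits_mem_lang]
    simp [W]
  · obtain ⟨R, c, d, hR, hs⟩ := h _ (inNP_every hA1)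
    refine inAM_of_amfeasible hA2 (le_inP true) (amfeasible_of_red true hD hR
      (fun z => (hs z).1) fun L => ?_) hS
    rw [← (hs (bits L)).2, Set.mem_compl_iff, bits_mem_lang]
    simp [W]

end Pool.Agent.TH684.DN
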